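import Pool.Agent.Lib.MP_08e893_gt.Upper

set_option autoImplicit false

namespace Pool.Agent.Results.MP_08e893_gt.CompactSpread

open Cardinal

/-- `C_p(Z)`: the continuous real functions on `Z` with the topology of pointwise convergence
(the subspace topology of the product topology on `Z → ℝ`). -/
abbrev Cp (Z : Type) [TopologicalSpace Z] : Type := {f : Z → ℝ // Continuous f}

/-- `C_p(Y|X)`: the restrictions to `Y` of the continuous real functions on `X`, with the topology
of pointwise convergence on `Y`. -/
abbrev CpRestr (X : Type) [TopologicalSpace X] (Y : Set X) : Type :=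
  {g : Y → ℝ // ∃ f : X → ℝ, Continuous f ∧ ∀ y : Y, g y = f y}

/-- The spread: the supremum of the cardinalities of the discrete subspaces, plus `ω`. -/
noncomputable def spread (Z : Type) [TopologicalSpace Z] : Cardinal.{0} :=
  (⨆ D : {D : Set Z // DiscreteTopology D}, #D.1) + ℵ₀

open Pool.Agent.Lib.MP_08e893_gt

/-- There are a connected compact Hausdorff space `X` and a subset `Y` of `X` such that every
discrete subspace of `C_p(Y|X)` has at most `ℵ₁` points, while `C_p(Y)` has a discrete subspace of
cardinality `ℵ₂`; so the spread of `C_p(Y|X)` is at most `ℵ₁`, that of `C_p(Y)` at least `ℵ₂`. -/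
theorem result : ∃ (X : Type) (_ : TopologicalSpace X) (_ : CompactSpace X) (_ : T2Space X)
    (_ : ConnectedSpace X) (Y : Set X),
    (∀ E : Set (CpRestr X Y), DiscreteTopology E → #E ≤ ℵ_ 1) ∧
    (∃ D : Set (Cp Y), DiscreteTopology D ∧ #D = ℵ_ 2) ∧
    spread (CpRestr X Y) ≤ ℵ_ 1 ∧ ℵ_ 2 ≤ spread (Cp Y) := by
  have hTT := TT_nonempty
  obtain ⟨col, hcol⟩ := combW TT
  have hcK : ConnectedSpace K :=
    { isPreconnected_univ := isPreconnected_Tri
      toNonempty := ⟨pt (q1 0)⟩ }
  have hE : ∀ E : Set (CpRestr XX (YY col)), DiscreteTopology E → #E ≤ ℵ_ 1 := by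
    intro E hEd
    have h1 : ∀ g ∈ Subtype.val '' E, ∃ h : ∃ f : XX → ℝ, Continuous f ∧
        ∀ y : YY col, g y = f y, (⟨g, h⟩ : CpRestr XX (YY col)) ∈ E := by
      rintro _ ⟨g, hg, rfl⟩
      exact ⟨g.2, hg⟩
    have hd : DiscreteTopology (Subtype.val '' E : Set (YY col → ℝ)) := by
      let F : (Subtype.val '' E : Set (YY col → ℝ)) → E := fun g =>
        ⟨⟨g.1, (h1 g.1 g.2).1⟩, (h1 g.1 g.2).2⟩
      have hF : Topology.IsEmbedding F := by
        have h2 : Topology.IsEmbedding ((Subtype.val : CpRestr XX (YY col) → (YY col → ℝ)) ∘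
            (Subtype.val : E → CpRestr XX (YY col)) ∘ F) :=
          Topology.IsEmbedding.subtypeVal
        have h3 : Continuous F := by
          refine Continuous.subtype_mk (Continuous.subtype_mk continuous_subtype_val _) _
        exact Topology.IsEmbedding.of_comp h3
          (continuous_subtype_val.comp continuous_subtype_val) h2
      exact hF.discreteTopology
    have h4 := upper col hcol (Subtype.val '' E) (by
      rintro _ ⟨g, _, rfl⟩
      obtain ⟨f, hf, hfg⟩ := g.2
      exact ⟨⟨f, hf⟩, funext fun y => (hfg y).symm⟩) hd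
    rw [mk_W1, Cardinal.mk_image_eq Subtype.val_injective] at h4
    exact h4
  have hD : ∃ D : Set (Cp (YY col)), DiscreteTopology D ∧ #D = ℵ_ 2 := by
    let D : Set (Cp (YY col)) := {g | g.1 ∈ DD col}
    have himg : Subtype.val '' D = DD col := by
      ext g
      constructor
      · rintro ⟨g, hg, rfl⟩
        exact hg
      · intro hg
        have hg' := hg
        obtain ⟨α, rfl⟩ := hg'
        exact ⟨⟨_, (gg col α).continuous⟩, hg, rfl⟩
    refine ⟨D, ?_, ?_⟩
    · let G : D → DD col := fun g => ⟨g.1.1, g.2⟩
      have hG : Topology.IsEmbedding G := by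
        have h2 : Topology.IsEmbedding ((Subtype.val : DD col → (YY col → ℝ)) ∘ G) :=
          (Topology.IsEmbedding.subtypeVal (p := fun g : YY col → ℝ => Continuous g)).comp
            (Topology.IsEmbedding.subtypeVal (p := fun g => g ∈ D))
        have h3 : Continuous G :=
          Continuous.subtype_mk (continuous_subtype_val.comp continuous_subtype_val) _
        exact Topology.IsEmbedding.of_comp h3 continuous_subtype_val h2
      have := DD_discrete col
      exact hG.discreteTopology
    · have h5 : #(Subtype.val '' D : Set (YY col → ℝ)) = #D :=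
        Cardinal.mk_image_eq Subtype.val_injective
      rw [← h5, himg, ← DD_card, mk_W2]
  refine ⟨XX, inferInstance, inferInstance, inferInstance, inferInstance, YY col, hE, hD, ?_, ?_⟩
  · refine Cardinal.add_le_of_le (Cardinal.aleph0_le_aleph 1) (ciSup_le' ?_)
      (Cardinal.aleph0_le_aleph 1)
    rintro ⟨E, hEd⟩
    exact hE E hEd
  · obtain ⟨D, hD1, hD2⟩ := hD
    rw [← hD2]
    refine le_trans ?_ le_self_add
    exact le_ciSup (f := fun D : {D : Set (Cp (YY col)) // DiscreteTopology D} => #D.1)
      Cardinal.bddAbove_of_small ⟨D, hD1⟩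

end Pool.Agent.Results.MP_08e893_gt.CompactSpread
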